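import Pool.Agent.Work.MP_1b6add_co.Num

/-!
# Subset Take-away: the gaps between second-player wins
-/

set_option autoImplicit false

namespace Pool.Agent.Results.MP_1b6add_co.SecondPlayerGaps

/-- The position reached from the family `S` by the move `x`: the set `x` and all its supersets
are deleted. -/
def move {n : ℕ} (S : Finset (Finset (Fin n))) (x : Finset (Fin n)) : Finset (Finset (Fin n)) :=
  S.filter (fun y => ¬ x ⊆ y)

/-- The player to move loses from the position `S` (a player without a move loses). -/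
def Loses {n : ℕ} (S : Finset (Finset (Fin n))) : Prop :=
  ∀ x (_ : x ∈ S), ¬ Loses (move S x)
termination_by S.card
decreasing_by
  rename_i h
  exact Finset.card_lt_card (Finset.filter_ssubset.2 ⟨x, h, fun h' => h' (Finset.Subset.refl x)⟩)

/-- The `(n;k)` game: all nonempty sets of at most `k` elements of an `n`-element set. -/
def game (n k : ℕ) : Finset (Finset (Fin n)) :=
  Finset.univ.filter (fun s => s.Nonempty ∧ s.card ≤ k)

private theorem loses_eq {n : ℕ} : ∀ (m : ℕ) (S : Finset (Finset (Fin n))), S.card = m →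
    (Loses S ↔ Pool.Agent.Work.MP_1b6add_co.Loses S) := by
  intro m
  induction m using Nat.strong_induction_on with
  | _ m ih =>
    intro S hm
    rw [Loses, Pool.Agent.Work.MP_1b6add_co.loses_iff]
    constructor
    · intro h x hx
      have := h x hx
      rwa [ih _ (hm ▸ Pool.Agent.Work.MP_1b6add_co.card_step hx) (move S x) rfl] at this
    · intro h x hx
      rw [ih _ (hm ▸ Pool.Agent.Work.MP_1b6add_co.card_step hx) (move S x) rfl]
      exact h x hx

private theorem val_inj {n : ℕ} : ∀ a ∈ (Finset.univ : Finset (Fin n)),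
    ∀ b ∈ (Finset.univ : Finset (Fin n)), (a : ℕ) = b → a = b :=
  fun _ _ _ _ h => Fin.ext h

private theorem exists_fin {n : ℕ} {s : Finset ℕ} (h : s ⊆ Finset.range n) :
    ∃ t : Finset (Fin n), t.image Fin.val = s := by
  refine ⟨Finset.univ.filter (fun x : Fin n => (x : ℕ) ∈ s), ?_⟩
  ext y
  rw [Finset.mem_image]
  constructor
  · rintro ⟨x, hx, rfl⟩
    exact (Finset.mem_filter.1 hx).2
  · intro hy
    exact ⟨⟨y, Finset.mem_range.1 (h hy)⟩, by simpa using hy, rfl⟩

private theorem image_sub {n : ℕ} (s : Finset (Fin n)) : s.image Fin.val ⊆ Finset.range n := by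
  intro y hy
  obtain ⟨x, -, rfl⟩ := Finset.mem_image.1 hy
  exact Finset.mem_range.2 x.2

private theorem card_image {n : ℕ} (s : Finset (Fin n)) : (s.image Fin.val).card = s.card :=
  Finset.card_image_of_injective s Fin.val_injective

private theorem game_image (n k : ℕ) : (game n k).image (fun s => s.image Fin.val)
    = Pool.Agent.Work.MP_1b6add_co.G (Finset.range n) k := by
  ext s
  rw [Finset.mem_image, Pool.Agent.Work.MP_1b6add_co.mem_G]
  constructor
  · rintro ⟨t, ht, rfl⟩
    obtain ⟨h1, h2⟩ := (Finset.mem_filter.1 ht).2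
    exact ⟨image_sub t, h1.image _, by rwa [card_image]⟩
  · rintro ⟨h1, h2, h3⟩
    obtain ⟨t, rfl⟩ := exists_fin h1
    refine ⟨t, Finset.mem_filter.2 ⟨Finset.mem_univ _, ?_, ?_⟩, rfl⟩
    · exact Finset.image_nonempty.1 h2
    · rwa [card_image] at h3

private theorem loses_game (n k : ℕ) :
    Loses (game n k) ↔ Pool.Agent.Work.MP_1b6add_co.q n k := by
  rw [loses_eq _ _ rfl, ← Pool.Agent.Work.MP_1b6add_co.loses_image (fun x : Fin n => (x : ℕ))
    Finset.univ val_inj _ (game n k) rfl (fun s _ => Finset.subset_univ s)]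
  unfold Pool.Agent.Work.MP_1b6add_co.q
  rw [← game_image]

/-- **Gaps between second-player wins.** If the `(n;k)` game is a second-player win, `k ≥ 2`, then
`(n + 1;k)` and `(n + 2;k)` are not, and for `k ≤ 4` some `(n + i;k)` with `3 ≤ i ≤ k + 1` is. -/
theorem result : ∀ n k, 2 ≤ k → Loses (game n k) →
    ¬ Loses (game (n + 1) k) ∧ ¬ Loses (game (n + 2) k) ∧
    (k ≤ 4 → ∃ i, 3 ≤ i ∧ i ≤ k + 1 ∧ Loses (game (n + i) k)) := by
  intro n k hk h
  rw [loses_game] at h
  obtain ⟨h1, h2⟩ := Pool.Agent.Work.MP_1b6add_co.q_gap n k hk h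
  refine ⟨fun h' => h1 ((loses_game _ _).1 h'), fun h' => h2 ((loses_game _ _).1 h'),
    fun hk4 => ?_⟩
  by_cases hk2 : k = 2
  · subst hk2
    refine ⟨3, le_rfl, le_rfl, ?_⟩
    rw [loses_game]
    by_contra h3
    obtain ⟨j, hj, -, hj2, -⟩ := Pool.Agent.Work.MP_1b6add_co.exists_big (n + 1) 2 h1 h2 h3
    omega
  · obtain ⟨i, h3, h4, h5⟩ := Pool.Agent.Work.MP_1b6add_co.gap34 k (by omega) n h
    exact ⟨i, h3, h4, (loses_game _ _).2 h5⟩

end Pool.Agent.Results.MP_1b6add_co.SecondPlayerGaps
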