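import Pool.Agent.Work.MP_1b6add_co.Num

/-!
# Subset Take-away: the sizes of the winning opening moves
-/

set_option autoImplicit false

namespace Pool.Agent.Results.MP_1b6add_co.WinningSizes

/-- The position reached from the family `S` by the move `x`: the set `x` and all its supersets
are deleted. -/
def move {n : ℕ} (S : Finset (Finset (Fin n))) (x : Finset (Fin n)) : Finset (Finset (Fin n)) :=
  S.filter (fun y => ¬ x ⊆ y)

/-- The player to move loses from the position `S` (a player without a move loses). -/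
def Loses {n : ℕ} (S : Finset (Finset (Fin n))) : Prop :=
  ∀ x (_ : x ∈ S), ¬ Loses (move S x)
termination_by S.card
decreasing_by
  rename_i h
  exact Finset.card_lt_card (Finset.filter_ssubset.2 ⟨x, h, fun h' => h' (Finset.Subset.refl x)⟩)

/-- The `(n;k)` game: all nonempty sets of at most `k` elements of an `n`-element set. -/
def game (n k : ℕ) : Finset (Finset (Fin n)) :=
  Finset.univ.filter (fun s => s.Nonempty ∧ s.card ≤ k)

private theorem loses_eq {n : ℕ} : ∀ (m : ℕ) (S : Finset (Finset (Fin n))), S.card = m →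
    (Loses S ↔ Pool.Agent.Work.MP_1b6add_co.Loses S) := by
  intro m
  induction m using Nat.strong_induction_on with
  | _ m ih =>
    intro S hm
    rw [Loses, Pool.Agent.Work.MP_1b6add_co.loses_iff]
    constructor
    · intro h x hx
      have := h x hx
      rwa [ih _ (hm ▸ Pool.Agent.Work.MP_1b6add_co.card_step hx) (move S x) rfl] at this
    · intro h x hx
      rw [ih _ (hm ▸ Pool.Agent.Work.MP_1b6add_co.card_step hx) (move S x) rfl]
      exact h x hx

private theorem val_inj {n : ℕ} : ∀ a ∈ (Finset.univ : Finset (Fin n)),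
    ∀ b ∈ (Finset.univ : Finset (Fin n)), (a : ℕ) = b → a = b :=
  fun _ _ _ _ h => Fin.ext h

private theorem exists_fin {n : ℕ} {s : Finset ℕ} (h : s ⊆ Finset.range n) :
    ∃ t : Finset (Fin n), t.image Fin.val = s := by
  refine ⟨Finset.univ.filter (fun x : Fin n => (x : ℕ) ∈ s), ?_⟩
  ext y
  rw [Finset.mem_image]
  constructor
  · rintro ⟨x, hx, rfl⟩
    exact (Finset.mem_filter.1 hx).2
  · intro hy
    exact ⟨⟨y, Finset.mem_range.1 (h hy)⟩, by simpa using hy, rfl⟩

private theorem image_sub {n : ℕ} (s : Finset (Fin n)) : s.image Fin.val ⊆ Finset.range n := by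
  intro y hy
  obtain ⟨x, -, rfl⟩ := Finset.mem_image.1 hy
  exact Finset.mem_range.2 x.2

private theorem card_image {n : ℕ} (s : Finset (Fin n)) : (s.image Fin.val).card = s.card :=
  Finset.card_image_of_injective s Fin.val_injective

private theorem move_image (n k : ℕ) (S : Finset (Fin n)) :
    (move (game n k) S).image (fun s => s.image Fin.val)
    = Pool.Agent.Work.MP_1b6add_co.Y (Finset.range n) k (S.image Fin.val) := by
  ext s
  rw [Finset.mem_image, Pool.Agent.Work.MP_1b6add_co.mem_Y]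
  have hsub : ∀ t : Finset (Fin n), (S.image Fin.val ⊆ t.image Fin.val ↔ S ⊆ t) := fun t =>
    Finset.image_subset_image_iff Fin.val_injective
  constructor
  · rintro ⟨t, ht, rfl⟩
    obtain ⟨ht1, ht2⟩ := Finset.mem_filter.1 ht
    obtain ⟨h1, h2⟩ := (Finset.mem_filter.1 ht1).2
    exact ⟨⟨image_sub t, h1.image _, by rwa [card_image]⟩, fun h => ht2 ((hsub t).1 h)⟩
  · rintro ⟨⟨h1, h2, h3⟩, h4⟩
    obtain ⟨t, rfl⟩ := exists_fin h1
    refine ⟨t, Finset.mem_filter.2 ⟨Finset.mem_filter.2 ⟨Finset.mem_univ _, ?_, ?_⟩, ?_⟩, rfl⟩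
    · exact Finset.image_nonempty.1 h2
    · rwa [card_image] at h3
    · exact fun h => h4 ((hsub t).2 h)

private theorem loses_move (n k : ℕ) (S : Finset (Fin n)) :
    Loses (move (game n k) S) ↔ Pool.Agent.Work.MP_1b6add_co.p n k S.card := by
  rw [loses_eq _ _ rfl, ← Pool.Agent.Work.MP_1b6add_co.loses_image (fun x : Fin n => (x : ℕ))
    Finset.univ val_inj _ (move (game n k) S) rfl (fun s _ => Finset.subset_univ s)]
  have h := Pool.Agent.Work.MP_1b6add_co.Y_p (A := Finset.range n) (J := S.image Fin.val) k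
    (image_sub S)
  rw [Finset.card_range, card_image, ← move_image] at h
  exact h

private theorem move_univ (n : ℕ) (hn : 1 ≤ n) :
    move (game n n) Finset.univ = game n (n - 1) := by
  ext s
  unfold move game
  simp only [Finset.mem_filter, Finset.mem_univ, true_and]
  have hc : s.card ≤ n := by simpa using Finset.card_le_univ s
  have h1 : Finset.univ ⊆ s ↔ s.card = n := by
    rw [Finset.univ_subset_iff, ← Finset.card_eq_iff_eq_univ, Fintype.card_fin]
  rw [h1]
  constructor
  · rintro ⟨⟨h2, -⟩, h3⟩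
    exact ⟨h2, by omega⟩
  · rintro ⟨h2, h3⟩
    exact ⟨⟨h2, hc⟩, by omega⟩

/-- **Winning opening moves.** For every `n ≥ 1` the winning opening moves of the `(n;n)` game are
exactly the sets with `j n` elements; the Gale-Neyman conjecture for `n` says `j n = n`. One has
`j n ≥ 3` for `n ≥ 3`, and `j n`, `j (n + 1)`, `j (n + 2)` are distinct. -/
theorem result :
    ∃ j : ℕ → ℕ,
      (∀ n, 1 ≤ n → 1 ≤ j n ∧ j n ≤ n ∧
        (∀ S : Finset (Fin n), S.Nonempty → (Loses (move (game n n) S) ↔ S.card = j n)) ∧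
        (Loses (game n (n - 1)) ↔ j n = n)) ∧
      (∀ n, 3 ≤ n → 3 ≤ j n) ∧
      (∀ n, 1 ≤ n → j n ≠ j (n + 1) ∧ j n ≠ j (n + 2)) := by
  have hex : ∀ n : ℕ, ∃ j, 1 ≤ n → 1 ≤ j ∧ j ≤ n ∧ Pool.Agent.Work.MP_1b6add_co.p n n j := by
    intro n
    by_cases hn : 1 ≤ n
    · obtain ⟨j, hj⟩ := Pool.Agent.Work.MP_1b6add_co.exists_j n hn
      exact ⟨j, fun _ => hj⟩
    · exact ⟨0, fun h => absurd h hn⟩
  choose j hj using hex
  have hiff : ∀ n, 1 ≤ n → ∀ S : Finset (Fin n), S.Nonempty →
      (Loses (move (game n n) S) ↔ S.card = j n) := by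
    intro n hn S hS
    obtain ⟨h1, h2, h3⟩ := hj n hn
    rw [loses_move]
    have hS1 : 1 ≤ S.card := Finset.card_pos.2 hS
    have hS2 : S.card ≤ n := by simpa using Finset.card_le_univ S
    constructor
    · intro h
      by_contra hne
      rcases Nat.lt_or_gt_of_ne hne with hlt | hlt
      · exact Pool.Agent.Work.MP_1b6add_co.p_uniq n n _ _ hS1 hlt h2 h2 h3 h
      · exact Pool.Agent.Work.MP_1b6add_co.p_uniq n n _ _ h1 hlt hS2 hS2 h h3
    · intro h
      rwa [h]
  refine ⟨j, ?_, ?_, ?_⟩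
  · intro n hn
    obtain ⟨h1, h2, h3⟩ := hj n hn
    refine ⟨h1, h2, hiff n hn, ?_⟩
    have hne : (Finset.univ : Finset (Fin n)).Nonempty := ⟨⟨0, hn⟩, Finset.mem_univ _⟩
    rw [← move_univ n hn, hiff n hn _ hne, Finset.card_univ, Fintype.card_fin]
    exact ⟨fun h => h.symm, fun h => h.symm⟩
  · intro n hn
    obtain ⟨h1, h2, h3⟩ := hj n (by omega)
    exact Pool.Agent.Work.MP_1b6add_co.three_le n _ hn h1 h3
  · intro n hn
    obtain ⟨h1, h2, h3⟩ := hj n hn
    refine ⟨fun h => ?_, fun h => ?_⟩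
    · obtain ⟨-, -, h4⟩ := hj (n + 1) (by omega)
      rw [← h] at h4
      exact Pool.Agent.Work.MP_1b6add_co.not_p_succ_full n _ h1 h2 h3 h4
    · obtain ⟨-, -, h4⟩ := hj (n + 2) (by omega)
      rw [← h] at h4
      exact Pool.Agent.Work.MP_1b6add_co.not_p_succ2_full n _ h1 h2 h3 h4

end Pool.Agent.Results.MP_1b6add_co.WinningSizes
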